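import Pool.Agent.Helper6_RAM.Adj

/-!
Squad WHT, row UNF: the abstract unfolding.  `Λ₀ ≤ Λ` are subgroups of `G` acting on `X`, `S` is a
subset of `X`, stable under `Λ₀`, such that `γ x ∈ S`, `x ∈ S`, `γ ∈ Λ` implies `γ ∈ Λ₀`.
-/

set_option autoImplicit false

open scoped BigOperators

namespace Pool.Agent.WHT.H83

open Pool.Agent.DEN

section

variable {G X : Type} [Group G] [MulAction G X]

/-- the class of a point -/
abbrev cl (Λ : Subgroup G) (x : X) : MulAction.orbitRel.Quotient Λ X :=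
  Quotient.mk (MulAction.orbitRel Λ X) x

theorem cl_eq {Λ : Subgroup G} {x y : X} : cl Λ x = cl Λ y ↔ ∃ γ ∈ Λ, γ • y = x := by
  constructor
  · intro h
    have h1 : (MulAction.orbitRel Λ X) x y := Quotient.exact h
    rw [MulAction.orbitRel_apply] at h1
    obtain ⟨γ, hγ⟩ := h1
    exact ⟨γ.1, γ.2, hγ⟩
  · rintro ⟨γ, hγ, rfl⟩
    apply Quotient.sound
    show (MulAction.orbitRel Λ X) (γ • y) y
    rw [MulAction.orbitRel_apply]
    exact ⟨⟨γ, hγ⟩, rfl⟩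

theorem cl_out {Λ : Subgroup G} (x : X) : ∃ γ ∈ Λ, γ • x = (cl Λ x).out :=
  cl_eq.1 (Quotient.out_eq (cl Λ x))

theorem card_stab {Λ : Subgroup G} {x y : X} (h : ∃ γ ∈ Λ, γ • y = x) :
    Nat.card (MulAction.stabilizer Λ x) = Nat.card (MulAction.stabilizer Λ y) := by
  obtain ⟨γ, hγ, rfl⟩ := h
  refine Nat.card_congr (MulAction.stabilizerEquivStabilizerOfOrbitRel ?_).toEquiv
  rw [MulAction.orbitRel_apply]
  exact ⟨⟨γ, hγ⟩, rfl⟩

/-- the data of the unfolding -/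
structure Unf (Λ₀ Λ : Subgroup G) (S : Set X) : Prop where
  le : Λ₀ ≤ Λ
  st : ∀ γ ∈ Λ₀, ∀ x ∈ S, γ • x ∈ S
  sg : ∀ γ ∈ Λ, ∀ x ∈ S, γ • x ∈ S → γ ∈ Λ₀
  fin : {o : MulAction.orbitRel.Quotient Λ₀ X | o.out ∈ S}.Finite

open Classical in
/-- the Poincare series -/
noncomputable def poi (Λ : Subgroup G) (S : Set X) (w : X → ℂ) (x : X) : ℂ :=
  if h : ∃ γ ∈ Λ, γ • x ∈ S then w (h.choose • x) else 0

variable {Λ₀ Λ : Subgroup G} {S : Set X} (hS : Unf Λ₀ Λ S)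
include hS

theorem poi_of {w : X → ℂ} (hw : ∀ γ ∈ Λ₀, ∀ x, w (γ • x) = w x) {γ : G} (hγ : γ ∈ Λ) {x : X}
    (hx : γ • x ∈ S) : poi Λ S w x = w (γ • x) := by
  have h : ∃ γ ∈ Λ, γ • x ∈ S := ⟨γ, hγ, hx⟩
  unfold poi
  rw [dif_pos h]
  have h1 := h.choose_spec
  have h2 : (h.choose * γ⁻¹) • (γ • x) = h.choose • x := by
    rw [mul_smul, inv_smul_smul]
  have h3 : h.choose * γ⁻¹ ∈ Λ₀ := by
    refine hS.sg _ (mul_mem h1.1 (inv_mem hγ)) (γ • x) hx ?_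
    rw [h2]
    exact h1.2
  rw [← h2]
  exact hw _ h3 _

theorem poi_S {w : X → ℂ} (hw : ∀ γ ∈ Λ₀, ∀ x, w (γ • x) = w x) {x : X} (hx : x ∈ S) :
    poi Λ S w x = w x := by
  have h := poi_of hS hw (one_mem Λ) (x := x) (by rwa [one_smul])
  rwa [one_smul] at h

omit hS in
theorem poi_zero {w : X → ℂ} {x : X} (h : ¬ ∃ γ ∈ Λ, γ • x ∈ S) : poi Λ S w x = 0 := by
  unfold poi
  rw [dif_neg h]

theorem poi_inv {w : X → ℂ} (hw : ∀ γ ∈ Λ₀, ∀ x, w (γ • x) = w x) :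
    ∀ γ ∈ Λ, ∀ x, poi Λ S w (γ • x) = poi Λ S w x := by
  intro γ hγ x
  by_cases h : ∃ δ ∈ Λ, δ • (γ • x) ∈ S
  · obtain ⟨δ, hδ, hx⟩ := h
    rw [poi_of hS hw hδ hx, poi_of hS hw (mul_mem hδ hγ) (x := x) (by rwa [mul_smul]), mul_smul]
  · rw [poi_zero h, poi_zero]
    rintro ⟨δ, hδ, hx⟩
    refine h ⟨δ * γ⁻¹, mul_mem hδ (inv_mem hγ), ?_⟩
    rwa [mul_smul, inv_smul_smul]

/-- the map on orbits -/
theorem cover {o : MulAction.orbitRel.Quotient Λ X} (h : ∃ γ ∈ Λ, γ • o.out ∈ S) :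
    ∃ o' : MulAction.orbitRel.Quotient Λ₀ X, o'.out ∈ S ∧ cl Λ o'.out = o := by
  obtain ⟨γ, hγ, hx⟩ := h
  obtain ⟨δ, hδ, hδ'⟩ := cl_out (Λ := Λ₀) (γ • o.out)
  refine ⟨cl Λ₀ (γ • o.out), ?_, ?_⟩
  · rw [← hδ']
    exact hS.st δ hδ _ hx
  · conv_rhs => rw [← Quotient.out_eq o]
    rw [← hδ']
    refine cl_eq.2 ⟨δ * γ, mul_mem (hS.le hδ) hγ, ?_⟩
    rw [mul_smul]

theorem poi_PV {w : X → ℂ} (hw : ∀ γ ∈ Λ₀, ∀ x, w (γ • x) = w x) :
    H6.PV Λ (poi Λ S w) := by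
  refine ⟨poi_inv hS hw, (hS.fin.image fun o' => cl Λ o'.out).subset ?_⟩
  intro o ho
  have h : ∃ γ ∈ Λ, γ • o.out ∈ S := by
    by_contra hcon
    exact ho (poi_zero hcon)
  obtain ⟨o', h1, h2⟩ := cover hS h
  exact ⟨o', h1, h2⟩

theorem card_S {x : X} (hx : x ∈ S) :
    Nat.card (MulAction.stabilizer Λ x) = Nat.card (MulAction.stabilizer Λ₀ x) := by
  refine Nat.card_congr ⟨fun g => ⟨⟨g.1.1, ?_⟩, ?_⟩, fun g => ⟨⟨g.1.1, hS.le g.1.2⟩, ?_⟩, ?_, ?_⟩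
  · have h : g.1.1 • x = x := g.2
    refine hS.sg _ g.1.2 x hx ?_
    rw [h]
    exact hx
  · exact g.2
  · exact g.2
  · intro g
    rfl
  · intro g
    rfl

/-- the unfolding -/
theorem unfold_pet {w : X → ℂ} (hw : ∀ γ ∈ Λ₀, ∀ x, w (γ • x) = w x)
    (hwS : ∀ x, w x ≠ 0 → x ∈ S) {f : X → ℂ} (hf : ∀ γ ∈ Λ, ∀ x, f (γ • x) = f x) :
    H6.pet Λ (poi Λ S w) f = H6.pet Λ₀ w f := by
  classical
  have h1 : ∀ o : MulAction.orbitRel.Quotient Λ₀ X, w o.out ≠ 0 → o ∈ hS.fin.toFinset := by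
    intro o ho
    rw [Set.Finite.mem_toFinset]
    exact hwS _ ho
  have h2 : ∀ o : MulAction.orbitRel.Quotient Λ X, poi Λ S w o.out ≠ 0 →
      o ∈ hS.fin.toFinset.image fun o' => cl Λ o'.out := by
    intro o ho
    have h : ∃ γ ∈ Λ, γ • o.out ∈ S := by
      by_contra hcon
      exact ho (poi_zero hcon)
    obtain ⟨o', h3, h4⟩ := cover hS h
    refine Finset.mem_image.2 ⟨o', ?_, h4⟩
    rw [Set.Finite.mem_toFinset]
    exact h3
  rw [H6.pet_eq _ h1, H6.pet_eq _ h2, Finset.sum_image]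
  · refine Finset.sum_congr rfl fun o ho => ?_
    rw [Set.Finite.mem_toFinset] at ho
    have ho' : o.out ∈ S := ho
    rw [H6.inv_out (poi_inv hS hw), H6.inv_out hf, poi_S hS hw ho']
    obtain ⟨δ, hδ, hδ'⟩ := cl_out (Λ := Λ) o.out
    have h3 : Nat.card (MulAction.stabilizer Λ (cl Λ o.out).out) =
        Nat.card (MulAction.stabilizer Λ₀ o.out) := by
      rw [← card_S hS ho']
      exact card_stab ⟨δ, hδ, hδ'⟩
    rw [h3]
  · intro o ho o' ho' h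
    rw [Finset.mem_coe, Set.Finite.mem_toFinset] at ho ho'
    obtain ⟨γ, hγ, hγ'⟩ := cl_eq.1 h
    have h3 : γ ∈ Λ₀ := by
      refine hS.sg γ hγ o'.out ho' ?_
      rw [hγ']
      exact ho
    have h4 : cl Λ₀ o.out = cl Λ₀ o'.out := cl_eq.2 ⟨γ, h3, hγ'⟩
    rw [← Quotient.out_eq o, ← Quotient.out_eq o']
    exact h4

end

section

variable {G X : Type} [Group G] [MulAction G X]

open Classical in
/-- the volume of `S` modulo `Λ₀` -/
noncomputable def avol (Λ₀ : Subgroup G) (S : Set X) : ℝ :=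
  ∑ᶠ o : MulAction.orbitRel.Quotient Λ₀ X,
    (if o.out ∈ S then 1 else 0) / Nat.card (MulAction.stabilizer Λ₀ o.out)

variable {Λ₀ Λ : Subgroup G} {S : Set X} (hS : Unf Λ₀ Λ S)
include hS

theorem avol_eq : avol Λ₀ S = ∑ o ∈ hS.fin.toFinset,
    1 / (Nat.card (MulAction.stabilizer Λ₀ o.out) : ℝ) := by
  classical
  unfold avol
  rw [finsum_eq_sum_of_support_subset (s := hS.fin.toFinset)]
  · refine Finset.sum_congr rfl fun o ho => ?_
    rw [Set.Finite.mem_toFinset] at ho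
    have ho' : o.out ∈ S := ho
    rw [if_pos ho']
  · intro o ho
    rw [Set.Finite.coe_toFinset]
    by_contra h
    have h' : ¬ o.out ∈ S := h
    apply ho
    show (if o.out ∈ S then (1 : ℝ) else 0) / _ = 0
    rw [if_neg h', zero_div]

theorem avol_pos (hst : ∀ x : X, Finite (MulAction.stabilizer Λ x)) (hne : S.Nonempty) :
    0 < avol Λ₀ S := by
  rw [avol_eq hS]
  apply Finset.sum_pos
  · intro o ho
    rw [Set.Finite.mem_toFinset] at ho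
    have ho' : o.out ∈ S := ho
    rw [← card_S hS ho']
    have := hst o.out
    have h : 0 < Nat.card (MulAction.stabilizer Λ o.out) := Nat.card_pos
    have h' : (0 : ℝ) < (Nat.card (MulAction.stabilizer Λ o.out) : ℝ) := by
      exact_mod_cast h
    exact one_div_pos.2 h'
  · obtain ⟨x, hx⟩ := hne
    refine ⟨cl Λ₀ x, ?_⟩
    rw [Set.Finite.mem_toFinset]
    obtain ⟨γ, hγ, h⟩ := cl_out (Λ := Λ₀) x
    show (cl Λ₀ x).out ∈ S
    rw [← h]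
    exact hS.st γ hγ _ hx

theorem pet_avol {w f : X → ℂ} {a : ℂ} (hwS : ∀ x, w x ≠ 0 → x ∈ S)
    (h : ∀ x ∈ S, (starRingEnd ℂ) (w x) * f x = a) : H6.pet Λ₀ w f = a * avol Λ₀ S := by
  rw [H6.pet_eq hS.fin.toFinset (fun o ho => by
    rw [Set.Finite.mem_toFinset]
    exact hwS _ ho), avol_eq hS]
  push_cast
  rw [Finset.mul_sum]
  refine Finset.sum_congr rfl fun o ho => ?_
  rw [Set.Finite.mem_toFinset] at ho
  have ho' : o.out ∈ S := ho
  rw [h _ ho', mul_one_div]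

end

end Pool.Agent.WHT.H83
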