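import Pool.Agent.Helper97_WHT.Stmt
import Pool.Agent.Helper83_WHT.Unfold

/-!
Squad WHT, row UNF: the Poincare series attached to a horocycle and the unfolding.
-/

set_option autoImplicit false

open scoped BigOperators

namespace Pool.Agent.WHT.H83

open Pool.Agent.DEN Pool.Agent.TMP

section

variable {r : ℕ} {C : Matrix (Fin r) (Fin r) ℤ} {K : Type} [Field K]

theorem mem_U0 {N : Polynomial K} {γ : grp C K} :
    γ ∈ U0 C N ↔ γ ∈ Ug C K ∧ γ ∈ cong C K 1 N := Iff.rfl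

variable (hC : SimplyLaced C)

theorem wf_eq {N : Polynomial K} {χ : grp C K → ℂ} (hχ : IsChi N χ) {m : Fin r → ℤ}
    (hm : Good hC χ m) {u : grp C K} (hu : u ∈ Ug C K) :
    wf hC χ m (u • tp hC K m) = χ u := by
  have h : ∃ v ∈ Ug C K, u • tp hC K m = v • tp hC K m := ⟨u, hu, rfl⟩
  unfold wf
  rw [dif_pos h]
  obtain ⟨h1, h2⟩ := h.choose_spec
  have h3 : (u⁻¹ * h.choose) • tp hC K m = tp hC K m := by
    rw [mul_smul, ← h2, inv_smul_smul]
  have h4 := hm.2 _ (mul_mem (inv_mem hu) h1) h3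
  have h5 := hχ.mul u hu (u⁻¹ * h.choose) (mul_mem (inv_mem hu) h1)
  rw [mul_inv_cancel_left, h4, mul_one] at h5
  exact h5

theorem wf_supp {χ : grp C K → ℂ} {m : Fin r → ℤ} {x : XX C K} (hx : wf hC χ m x ≠ 0) :
    x ∈ Hor hC K m := by
  by_contra h
  apply hx
  unfold wf
  exact dif_neg h

theorem wf_inv {N : Polynomial K} {χ : grp C K → ℂ} (hχ : IsChi N χ) {m : Fin r → ℤ}
    (hm : Good hC χ m) : ∀ γ ∈ U0 C N, ∀ x, wf hC χ m (γ • x) = wf hC χ m x := by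
  intro γ hγ x
  have hγ1 : γ ∈ Ug C K := (mem_U0.1 hγ).1
  by_cases hx : x ∈ Hor hC K m
  · obtain ⟨u, hu, rfl⟩ := hx
    rw [← mul_smul, wf_eq hC hχ hm (mul_mem hγ1 hu), wf_eq hC hχ hm hu, hχ.mul γ hγ1 u hu,
      hχ.lev γ hγ, one_mul]
  · have h1 : wf hC χ m x = 0 := by
      by_contra h
      exact hx (wf_supp hC h)
    have h2 : wf hC χ m (γ • x) = 0 := by
      by_contra h
      obtain ⟨u, hu, h3⟩ := wf_supp hC h
      refine hx ⟨γ⁻¹ * u, mul_mem (inv_mem hγ1) hu, ?_⟩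
      rw [mul_smul, ← h3, inv_smul_smul]
    rw [h1, h2]

theorem unf_data [Finite K] (sie : SieStmt) {N : Polynomial K} (hN : 0 < N.natDegree)
    {m : Fin r → ℤ} (hm : IsDom C m) : Unf (U0 C N) (cong C K 1 N) (Hor hC K m) := by
  obtain ⟨s1, s2, s3⟩ := sie r C hC K
  refine ⟨inf_le_right, ?_, ?_, ?_⟩
  · rintro γ hγ x ⟨u, hu, rfl⟩
    exact ⟨γ * u, mul_mem (mem_U0.1 hγ).1 hu, (mul_smul _ _ _).symm⟩
  · rintro γ hγ x ⟨u, hu, rfl⟩ ⟨u', hu', h⟩
    exact mem_U0.2 ⟨(s3 N hN γ hγ m m hm hm u hu u' hu' h).1, hγ⟩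
  · have hN0 : N ≠ 0 := by
      rintro rfl
      simp at hN
    have hfin := (H22.hFin r C hC K).2.2 N hN0
    let A : Subgroup (grp C K) := Ug C K ⊓ arith C K 1
    have hA : A ≤ arith C K 1 := inf_le_right
    have h1 : ((cong C K 1 N).subgroupOf A).index ≠ 0 := by
      intro h
      exact hfin (Subgroup.relIndex_eq_zero_of_le_right hA h)
    have : Finite (A ⧸ (cong C K 1 N).subgroupOf A) := Subgroup.index_ne_zero_iff_finite.1 h1
    refine (Set.finite_range fun q : A ⧸ (cong C K 1 N).subgroupOf A =>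
      cl (U0 C N) ((q.out.1)⁻¹ • tp hC K m)).subset ?_
    rintro o ⟨u, hu, h2⟩
    obtain ⟨a, ha, ha', c, hc, rfl⟩ := s1 u hu
    rw [mul_smul, s2 m hm c hc] at h2
    let b : A := ⟨a, ⟨ha, ha'⟩⟩
    refine ⟨(QuotientGroup.mk b⁻¹ : A ⧸ (cong C K 1 N).subgroupOf A), ?_⟩
    set q : A ⧸ (cong C K 1 N).subgroupOf A := QuotientGroup.mk b⁻¹ with hq
    have h3 : (QuotientGroup.mk q.out : A ⧸ (cong C K 1 N).subgroupOf A) =
        QuotientGroup.mk b⁻¹ := by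
      rw [QuotientGroup.out_eq']
    rw [QuotientGroup.eq, Subgroup.mem_subgroupOf] at h3
    have h4 : (q.out.1)⁻¹ * a⁻¹ ∈ cong C K 1 N := h3
    have h5 : (q.out.1)⁻¹ * a⁻¹ ∈ U0 C N :=
      mem_U0.2 ⟨mul_mem (inv_mem q.out.2.1) (inv_mem ha), h4⟩
    show cl (U0 C N) ((q.out.1)⁻¹ • tp hC K m) = o
    conv_rhs => rw [← Quotient.out_eq o]
    refine cl_eq.2 ⟨_, h5, ?_⟩
    rw [h2, mul_smul, inv_smul_smul]

end

theorem unf (sie : SieStmt) : UnfStmt := by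
  intro r C hC K _ _ N hN χ hχ m hm
  classical
  have hS := unf_data hC sie hN hm.1
  have hw := wf_inv hC hχ hm
  obtain ⟨s1, s2, s3⟩ := sie r C hC K
  have hv : vol hC N m = avol (U0 C N) (Hor hC K m) := rfl
  rw [hv]
  refine ⟨avol_pos hS ((H22.hFin r C hC K).2.1 N) ⟨tp hC K m, 1, one_mem _, (one_smul _ _).symm⟩,
    poi (cong C K 1 N) (Hor hC K m) (wf hC χ m), poi_PV hS hw, ?_, ?_, ?_⟩
  · intro m' hm' u hu
    by_cases h : m' = m
    · subst h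
      rw [if_pos rfl, poi_S hS hw ⟨u, hu, rfl⟩, wf_eq hC hχ hm hu]
    · rw [if_neg h, poi_zero]
      rintro ⟨γ, hγ, u', hu', h1⟩
      exact h (s3 N hN γ hγ m' m hm' hm.1 u hu u' hu' h1).2
  · intro f hf
    exact unfold_pet hS hw (fun x hx => wf_supp hC hx) hf
  · intro f a hf
    refine pet_avol hS (fun x hx => wf_supp hC hx) ?_
    rintro x ⟨u, hu, rfl⟩
    have e3 : (starRingEnd ℂ) (χ u) * χ u = 1 := by
      rw [← Complex.normSq_eq_conj_mul_self, Complex.normSq_eq_norm_sq, hχ.norm_one u hu]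
      norm_num
    rw [wf_eq hC hχ hm hu, hf u hu]
    calc (starRingEnd ℂ) (χ u) * (a * χ u) = a * ((starRingEnd ℂ) (χ u) * χ u) := by ring
      _ = a := by rw [e3, mul_one]

end Pool.Agent.WHT.H83
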