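import Pool.Agent.Helper97_WHT.Stmt

/-!
Squad WHT, row GENX: the simple coordinates of `U` and the characters of `U`.
-/

set_option autoImplicit false

open scoped BigOperators

namespace Pool.Agent.WHT.H83

open Pool.Agent.DEN Pool.Agent.TMP

section

variable {r : ℕ} {C : Matrix (Fin r) (Fin r) ℤ} {K : Type} [Field K]

theorem chi_one {N : Polynomial K} {χ : grp C K → ℂ} (h : IsChi N χ) : χ 1 = 1 := by
  have h1 := h.mul 1 (one_mem _) 1 (one_mem _)
  rw [mul_one] at h1
  have h2 : χ 1 ≠ 0 := by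
    intro h0
    have h3 := h.norm_one 1 (one_mem _)
    rw [h0, norm_zero] at h3
    exact zero_ne_one h3
  exact (mul_left_cancel₀ h2 ((mul_one _).trans h1)).symm

theorem chi_ne {N : Polynomial K} {χ : grp C K → ℂ} (h : IsChi N χ) {u : grp C K}
    (hu : u ∈ Ug C K) : χ u ≠ 0 := by
  intro h0
  have h3 := h.norm_one u hu
  rw [h0, norm_zero] at h3
  exact zero_ne_one h3

theorem chi_inv {N : Polynomial K} {χ : grp C K → ℂ} (h : IsChi N χ) {u : grp C K}
    (hu : u ∈ Ug C K) : χ u⁻¹ = (χ u)⁻¹ := by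
  have h1 := h.mul u hu u⁻¹ (inv_mem hu)
  rw [mul_inv_cancel, chi_one h] at h1
  exact eq_inv_of_mul_eq_one_right h1.symm

variable (hC : SimplyLaced C)
include hC

omit [Field K] in
theorem ht_sr (i : Fin r) : ht (hC.sr i) = ((1 : ℕ) : ℤ) := by
  unfold ht
  rw [SimplyLaced.sr_val]
  unfold al
  rw [Finset.sum_pi_single']
  simp

omit [Field K] in
theorem sr_pos (i : Fin r) : (hC.sr i).Pos := by
  intro j
  rw [SimplyLaced.sr_val]
  unfold al
  by_cases h : j = i
  · subst h
    rw [Pi.single_eq_same]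
    exact zero_le_one
  · rw [Pi.single_eq_of_ne h]

theorem sc_mul {u v : grp C K} (hu : u ∈ Ug C K) (hv : v ∈ Ug C K) (i : Fin r) :
    sc hC i (u * v) = sc hC i u + sc hC i v := by
  rw [← UH_one hC] at hu hv
  unfold sc
  rw [H63.uh_add hC le_rfl hu hv (ht_sr hC i), Pi.add_apply]
  ring

theorem sc_xg (β : Rt C) (a : FF K) (i : Fin r) [Decidable (β = hC.sr i)] :
    sc hC i (xg hC β a) = if β = hC.sr i then a else 0 := by
  classical
  unfold sc
  rw [H38.xg_EE hC (hC.sr i) β a i]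
  by_cases h : β = hC.sr i
  · rw [if_pos h, if_pos h, SimplyLaced.sr_val]
    unfold al
    rw [Pi.single_eq_same]
    simp
  · rw [if_neg h, if_neg h, neg_zero]

theorem sc_one (i : Fin r) : sc hC i (1 : grp C K) = 0 := by
  have h := sc_mul hC (one_mem (Ug C K)) (one_mem (Ug C K)) i
  rw [mul_one] at h
  exact left_eq_add.1 h

theorem sc_inv {u : grp C K} (hu : u ∈ Ug C K) (i : Fin r) : sc hC i u⁻¹ = -sc hC i u := by
  have h := sc_mul hC hu (inv_mem hu) i
  rw [mul_inv_cancel, sc_one hC] at h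
  exact eq_neg_of_add_eq_zero_right h.symm

/-- characters are trivial on the root elements for the roots which are not simple -/
theorem chi_deep {N : Polynomial K} {χ : grp C K → ℂ} (h : IsChi N χ) {δ : Rt C} (hδ : δ.Pos)
    (hs : ∀ i, δ ≠ hC.sr i) (c : FF K) : χ (xg hC δ c) = 1 := by
  rcases (H22.hRD r C hC).1 δ hδ with ⟨i, hi⟩ | ⟨i, hi1, hi2⟩
  · exact absurd hi (hs i)
  · let γ : Rt C := ⟨δ.1 - al i, hC.ip_sub_self (γ := hC.sr i) hi1⟩
    have hγ : γ.Pos := hi2
    have e1 : ip C (hC.sr i).1 γ.1 = -1 := by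
      change ip C (al i) (δ.1 - al i) = -1
      rw [ip_sub_right, hC.ip_comm (al i) δ.1, hi1, ip_al_al, hC.diag]
      norm_num
    have e2 : δ.1 = (hC.sr i).1 + γ.1 := by
      change δ.1 = al i + (δ.1 - al i)
      rw [add_sub_cancel]
    set s : FF K := ((eps C (hC.sr i).1 γ.1 : ℤ) : FF K) with hs'
    have hss : s * s = 1 := by
      rw [hs', ← Int.cast_mul, eps_mul_self, Int.cast_one]
    have e3 := H22.relB r C hC (FF K) (hC.sr i) γ δ (s * c) 1 e1 e2
    have e4 : s * (s * c) * 1 = c := by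
      rw [← mul_assoc, hss, one_mul, mul_one]
    rw [← hs', e4] at e3
    have e5 : xg hC (hC.sr i) (s * c) * xg hC γ 1 =
        xg hC γ 1 * xg hC δ c * xg hC (hC.sr i) (s * c) := Subtype.ext e3
    have m1 : xg hC (hC.sr i) (s * c) ∈ Ug C K := xg_Ug hC (sr_pos hC i) _
    have m2 : xg hC γ (1 : FF K) ∈ Ug C K := xg_Ug hC hγ _
    have m3 : xg hC δ c ∈ Ug C K := xg_Ug hC hδ _
    have e6 := congrArg χ e5
    rw [h.mul _ m1 _ m2, h.mul _ (mul_mem m2 m3) _ m1, h.mul _ m2 _ m3] at e6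
    have n1 := chi_ne h m1
    have n2 := chi_ne h m2
    have e7 : χ (xg hC (hC.sr i) (s * c)) * χ (xg hC γ 1) * χ (xg hC δ c) =
        χ (xg hC (hC.sr i) (s * c)) * χ (xg hC γ 1) * 1 := by
      rw [mul_one]
      conv_rhs => rw [e6]
      ring
    exact mul_left_cancel₀ (mul_ne_zero n1 n2) e7

theorem chi_prod {N : Polynomial K} {χ : grp C K → ℂ} (h : IsChi N χ) {u : grp C K}
    (hu : u ∈ Ug C K) : χ u = ∏ i, χ (xi hC i (sc hC i u)) := by
  classical
  have hx0 : ∀ i, xi hC i (0 : FF K) = 1 := fun i => xg_zero hC (hC.sr i)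
  have hxm : ∀ i (a : FF K), xi hC i a ∈ Ug C K := fun i a => xg_Ug hC (sr_pos hC i) a
  have hxa : ∀ i (a b : FF K), χ (xi hC i (a + b)) = χ (xi hC i a) * χ (xi hC i b) := by
    intro i a b
    rw [← h.mul _ (hxm i a) _ (hxm i b)]
    exact congrArg χ (xg_add hC (hC.sr i) a b)
  have hF : ∀ u ∈ Ug C K, ∀ v ∈ Ug C K, ∏ i, χ (xi hC i (sc hC i (u * v))) =
      (∏ i, χ (xi hC i (sc hC i u))) * ∏ i, χ (xi hC i (sc hC i v)) := by
    intro u hu v hv
    rw [← Finset.prod_mul_distrib]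
    exact Finset.prod_congr rfl fun i _ => by rw [sc_mul hC hu hv, hxa]
  have hF1 : ∏ i, χ (xi hC i (sc hC i (1 : grp C K))) = 1 := by
    refine Finset.prod_eq_one fun i _ => ?_
    rw [sc_one hC, hx0, chi_one h]
  have hU := Ug_eq (K := K) hC
  have hu' := hu
  rw [hU] at hu'
  induction hu' using Subgroup.closure_induction with
  | mem g hg =>
    obtain ⟨β, a, hβ, rfl⟩ := hg
    by_cases hs : ∃ i, β = hC.sr i
    · obtain ⟨i0, rfl⟩ := hs
      rw [Finset.prod_eq_single i0]
      · rw [sc_xg hC, if_pos rfl]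
        rfl
      · intro i _ hi
        rw [sc_xg hC, if_neg, hx0, chi_one h]
        intro h'
        apply hi
        have h2 := congrArg Subtype.val h'
        rw [SimplyLaced.sr_val, SimplyLaced.sr_val] at h2
        have h3 := congrFun h2 i0
        unfold al at h3
        rw [Pi.single_eq_same] at h3
        by_contra hne
        rw [Pi.single_eq_of_ne (fun h4 => hne h4.symm)] at h3
        exact one_ne_zero h3
      · intro h'
        exact absurd (Finset.mem_univ i0) h'
    · have hs' : ∀ i, β ≠ hC.sr i := fun i hi => hs ⟨i, hi⟩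
      rw [chi_deep hC h hβ hs', Finset.prod_eq_one]
      intro i _
      rw [sc_xg hC, if_neg (hs' i), hx0, chi_one h]
  | one => rw [hF1, chi_one h]
  | mul x y hx hy ihx ihy =>
    rw [← hU] at hx hy
    rw [h.mul x hx y hy, ihx hx, ihy hy, hF x hx y hy]
  | inv x hx ih =>
    rw [← hU] at hx
    have h1 := hF x hx x⁻¹ (inv_mem hx)
    rw [mul_inv_cancel, hF1, ← ih hx] at h1
    rw [chi_inv h hx]
    exact (eq_inv_of_mul_eq_one_right h1.symm).symm

end

theorem genx : GenxStmt := by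
  intro r C hC K _
  classical
  refine ⟨fun u hu v hv i => sc_mul hC hu hv i, fun β a _ i => ?_, fun N χ h u hu =>
    chi_prod hC h hu, fun u _ m hm i => ?_⟩
  · rw [sc_xg hC]
  · have h1 := H63.fix_Bd hC hm (hC.sr i) i
    rw [SimplyLaced.sr_val] at h1
    exact (H22.hF1 K).2.2.1 _ _ h1

end Pool.Agent.WHT.H83
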